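import Pool.Agent.Work.MP_288596_co.Exist

set_option autoImplicit false

/-!
The fish bone conjecture for posets of finite width (Aharoni and Korman): every poset, in any
universe, whose finite antichains have at most `k` elements has a chain `C` and a decomposition
`D` of its elements into antichains such that `C` meets every member of `D`.
-/

namespace Pool.Agent.Results.MP_288596_co.FishboneFiniteWidth

universe u

/-- Every poset in which the finite antichains have at most `k` elements contains a chain `C` and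
has a decomposition `D` into antichains such that `C` meets every member of `D` (in exactly one
element); moreover `C` is strongly maximal. -/
theorem result (α : Type u) [PartialOrder α] (k : ℕ)
    (hk : ∀ A : Finset α, IsAntichain (· ≤ ·) (A : Set α) → A.card ≤ k) :
    ∃ C : Set α, IsChain (· ≤ ·) C ∧
      (∃ D : Set (Set α),
        (∀ A ∈ D, IsAntichain (· ≤ ·) A) ∧
        (∀ A ∈ D, ∀ B ∈ D, A ≠ B → Disjoint A B) ∧
        ⋃₀ D = Set.univ ∧
        ∀ A ∈ D, ∃! x, x ∈ C ∩ A) ∧
      ∀ C' : Set α, IsChain (· ≤ ·) C' →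
        Cardinal.mk (C' \ C : Set α) ≤ Cardinal.mk (C \ C' : Set α) := by
  obtain ⟨C, hC, D, hD, hDa, hDC⟩ := Pool.Agent.Work.MP_288596_co.fishbone α
    ⟨k, fun A hA => by
      by_contra hcon
      push Not at hcon
      obtain ⟨t, htA, htc⟩ := Set.exists_subset_encard_eq (s := A) (k := ((k + 1 : ℕ) : ℕ∞))
        (by
          have := Order.add_one_le_of_lt hcon
          exact_mod_cast this)
      have htf : t.Finite := Set.finite_of_encard_eq_coe htc
      have h1 := hk htf.toFinset (by
        rw [Set.Finite.coe_toFinset]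
        exact hA.subset htA)
      rw [htf.encard_eq_coe_toFinset_card] at htc
      have h2 : htf.toFinset.card = k + 1 := by exact_mod_cast htc
      omega⟩
  have huniq : ∀ A ∈ D, ∀ x ∈ C, ∀ y ∈ C, x ∈ A → y ∈ A → x = y := by
    intro A hA x hx y hy hxA hyA
    by_contra hne
    rcases hC hx hy hne with h | h
    · exact hDa A hA hxA hyA hne h
    · exact hDa A hA hyA hxA (Ne.symm hne) h
  have hcl : ∀ x : α, ∃ A ∈ D, x ∈ A ∧ ∃ c ∈ C, c ∈ A := by
    intro x
    obtain ⟨A, ⟨hA, hxA⟩, -⟩ := hD.2 x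
    obtain ⟨c, hcA, hcC⟩ := hDC A hA
    exact ⟨A, hA, hxA, c, hcC, hcA⟩
  choose F hF hxF c hcC hcF using hcl
  refine ⟨C, hC, ⟨D, hDa, ?_, ?_, ?_⟩, ?_⟩
  · intro A hA B hB hAB
    rw [Set.disjoint_left]
    intro x hxA hxB
    exact hAB ((hD.2 x).unique ⟨hA, hxA⟩ ⟨hB, hxB⟩)
  · rw [Set.eq_univ_iff_forall]
    exact fun x => ⟨F x, hF x, hxF x⟩
  · intro A hA
    obtain ⟨x, hxA, hxC⟩ := hDC A hA
    exact ⟨x, ⟨hxC, hxA⟩, fun y hy => huniq A hA y hy.1 x hxC hy.2 hxA⟩
  · intro C' hC'
    have hinj : ∀ x ∈ C', ∀ y ∈ C', F x = F y → x = y := by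
      intro x hx y hy hxy
      by_contra hne
      have hyF : y ∈ F x := hxy ▸ hxF y
      rcases hC' hx hy hne with h | h
      · exact hDa _ (hF x) (hxF x) hyF hne h
      · exact hDa _ (hF x) hyF (hxF x) (Ne.symm hne) h
    have hFc : ∀ x, F (c x) = F x := fun x =>
      (hD.2 (c x)).unique ⟨hF (c x), hxF (c x)⟩ ⟨hF x, hcF x⟩
    have hout : ∀ x ∈ C', x ∉ C → c x ∉ C' := by
      intro x hx hxC hcx
      have := hinj (c x) hcx x hx (hFc x)
      exact hxC (this ▸ hcC x)
    refine Cardinal.mk_le_of_injective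
      (f := fun x : (C' \ C : Set α) =>
        (⟨c x.1, hcC x.1, hout x.1 x.2.1 x.2.2⟩ : (C \ C' : Set α))) ?_
    intro x y hxy
    have h1 : c x.1 = c y.1 := congrArg Subtype.val hxy
    apply Subtype.ext
    apply hinj x.1 x.2.1 y.1 y.2.1
    rw [← hFc x.1, ← hFc y.1, h1]

end Pool.Agent.Results.MP_288596_co.FishboneFiniteWidth
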